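import Pool.Agent.Helper82.NQ.TabC

/-!
# Finite check: exponents up to 18
-/

set_option autoImplicit false
set_option maxRecDepth 100000

namespace Pool.Agent.Helper82.NQ

theorem c18 : chkR 18 0 [tb16, tb12, tb10, tb6, tb4, tb2] 8 = true := by decide +kernel

theorem c16 : chkR 16 0 [tb12, tb10, tb6, tb4, tb2] 4 = true := by decide +kernel

theorem c12 : chk 12 2 [tb10, tb6, tb4, tb2] 256 = true := by decide +kernel

theorem c10 : chk 10 2 [tb6, tb4, tb2] 64 = true := by decide +kernel

theorem c6 : chk 6 2 [tb4, tb2] 3 = true := by decide +kernel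

theorem c4 : chk 4 2 [tb2] 1 = true := by decide +kernel

end Pool.Agent.Helper82.NQ
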