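import Pool.Agent.Helper82.NQ.TabC

/-!
# Finite check: exponent 22, part 6
-/

set_option autoImplicit false
set_option maxRecDepth 100000

namespace Pool.Agent.Helper82.NQ

theorem c22_6 : chkR 22 48 TT22 8 = true := by decide +kernel

end Pool.Agent.Helper82.NQ
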