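import Pool.Agent.Helper82.NQ.Run
import Pool.Agent.Helper42.NQ.M_ENC
import Pool.Agent.Helper45.NQ.M_EST
import Pool.Agent.Helper63.NQ.M_GRP

/-!
# Counting odd near superperfect numbers with prime sigma components
-/

set_option autoImplicit false

namespace Pool.Agent.Helper82.NQ

open Finset

theorem rep_strictMono_left {p q b : ℕ} (hb : 1 ≤ b) (h : p < q) : rep p b < rep q b := by
  unfold rep
  apply Finset.sum_lt_sum
  · intro i _
    exact Nat.pow_le_pow_left h.le i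
  · exact ⟨1, by simp; omega, by simpa using h⟩

theorem rep_mono_right {p a b : ℕ} (h : a ≤ b) : rep p a ≤ rep p b := by
  unfold rep
  apply Finset.sum_le_sum_of_subset
  intro i hi
  rw [Finset.mem_range] at hi ⊢
  omega

/-- in an equality the smaller base has the larger exponent -/
theorem lt_of_rep_eq {p q a b : ℕ} (hb : 1 ≤ b) (h : p < q) (he : rep p a = rep q b) : b < a := by
  by_contra hc
  push Not at hc
  have h1 := rep_mono_right (p := p) hc
  have h2 := rep_strictMono_left hb h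
  omega

theorem cent_two_dvd {A : ℕ} (hA : 1 ≤ A) : 1 ≤ vv A := by
  have hp : Fact (Nat.Prime 2) := ⟨Nat.prime_two⟩
  have h : 2 ∣ Nat.centralBinom A := Nat.two_dvd_centralBinom_of_one_le hA
  unfold vv
  exact one_le_padicValNat_of_dvd (Nat.centralBinom_ne_zero A) h

/-- the smaller of two primes with equal sigma is at most `2 ^ (a - 2)` -/
theorem small_base {p q a b : ℕ} (hp : 2 ≤ p) (hpq : p < q) (ha : Even a) (hb : Even b) (hb1 : 1 ≤ b)
    (he : rep p a = rep q b) : 4 * p ≤ 2 ^ a := by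
  have hab := lt_of_rep_eq hb1 hpq he
  obtain ⟨A, rfl⟩ := ha
  obtain ⟨B, rfl⟩ := hb
  have h := hRUN A B p q (by omega) (by omega) hp hpq (by rw [two_mul, two_mul]; exact he)
  have h1 := cent_two_dvd (A := A) (by omega)
  have h2 : (4 : ℕ) ≤ 2 ^ (vv A + 1) := by
    calc (4 : ℕ) = 2 ^ 2 := by norm_num
      _ ≤ _ := Nat.pow_le_pow_right (by norm_num) (by omega)
  have h3 : (4 : ℕ) ^ A = 2 ^ (A + A) := by
    rw [← two_mul, pow_mul]
    norm_num
  rw [← h3]
  calc 4 * p = p * 4 := by ring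
    _ ≤ p * 2 ^ (vv A + 1) := Nat.mul_le_mul_left _ h2
    _ ≤ _ := h

theorem cand_of {n : ℕ} (hodd : Odd n)
    (hP : ∀ p a : ℕ, p.Prime → 1 ≤ a → p ^ a ∣ n → ¬ p ^ (a + 1) ∣ n →
      (ArithmeticFunction.sigma 1 (p ^ a)).Prime)
    (hN : ∃ d : ℕ, 0 < d ∧ d ∣ n ∧
      ArithmeticFunction.sigma 1 (ArithmeticFunction.sigma 1 n) = 2 * n + d) : Cand n := by
  obtain ⟨h1, h2⟩ := Pool.Agent.Helper63.NQ.hGRP n hodd hP hN
  refine ⟨hodd.pos.ne', fun p hp => ⟨h2 p hp, ?_⟩⟩
  rintro ⟨q, hq, hpq, he⟩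
  have hn0 : n ≠ 0 := hodd.pos.ne'
  have hqp := Nat.prime_of_mem_primeFactors hq
  have h3 := small_base (Nat.prime_of_mem_primeFactors hp).two_le hpq (h1 p hp) (h1 q hq)
    (hqp.factorization_pos_of_dvd hn0 (Nat.dvd_of_mem_primeFactors hq)) he.symm
  omega

end Pool.Agent.Helper82.NQ
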