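import Pool.Agent.Helper82.NQ.St2
import Pool.Agent.Helper82.NQ.Cnt
import Pool.Agent.Helper82.NQ.C18
import Pool.Agent.Helper82.NQ.C22_0
import Pool.Agent.Helper82.NQ.C22_1
import Pool.Agent.Helper82.NQ.C22_2
import Pool.Agent.Helper82.NQ.C22_3
import Pool.Agent.Helper82.NQ.C22_4
import Pool.Agent.Helper82.NQ.C22_5
import Pool.Agent.Helper82.NQ.C22_6
import Pool.Agent.Helper82.NQ.C22_7

/-!
# Large exponents
-/

set_option autoImplicit false

namespace Pool.Agent.Helper82.NQ

open Finset

theorem f22 {p : ℕ} (hp : Odd p) (h3 : 3 ≤ p) (hP : p ≤ 262144) {T : List (ℕ × ℕ)}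
    (hT : T ∈ TT22) {b : ℕ} (hb : imgOk b T = true) (q : ℕ) : rep p 22 ≠ rep q b := by
  by_cases h1 : p < 4096 * (0 + 8) + 3
  · exact chkR_use c22_0 hp (by omega) h1 hT hb q
  by_cases h2 : p < 4096 * (8 + 8) + 3
  · exact chkR_use c22_1 hp (by omega) h2 hT hb q
  by_cases h4 : p < 4096 * (16 + 8) + 3
  · exact chkR_use c22_2 hp (by omega) h4 hT hb q
  by_cases h5 : p < 4096 * (24 + 8) + 3
  · exact chkR_use c22_3 hp (by omega) h5 hT hb q
  by_cases h6 : p < 4096 * (32 + 8) + 3
  · exact chkR_use c22_4 hp (by omega) h6 hT hb q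
  by_cases h7 : p < 4096 * (40 + 8) + 3
  · exact chkR_use c22_5 hp (by omega) h7 hT hb q
  by_cases h8 : p < 4096 * (48 + 8) + 3
  · exact chkR_use c22_6 hp (by omega) h8 hT hb q
  exact chkR_use c22_7 hp (by omega) (by omega) hT hb q

theorem f_chk {a f p : ℕ} {TT : List (List (ℕ × ℕ))} (h : chk a 2 TT f = true) (hp : Odd p)
    (h3 : 3 ≤ p) (hP : p < 2 * f + 3) {T : List (ℕ × ℕ)} (hT : T ∈ TT) {b : ℕ}
    (hb : imgOk b T = true) (q : ℕ) : rep p a ≠ rep q b := by
  obtain ⟨s, hs⟩ := hp
  have h1 := chk_sound h (by norm_num) ((p - 3) / 2) (by omega) T hT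
  have h2 : 2 + 2 * ((p - 3) / 2) + 1 = p := by omega
  rw [h2] at h1
  exact tst_sound hb h1 q

/-- no equality with exponents at most `22` -/
theorem no_small (hVVB : StVVB) {p q a b : ℕ} (hp : Odd p) (h3 : 3 ≤ p) (hpq : p < q)
    (ha : Even a) (hb : Even b) (hb1 : 1 ≤ b) (ha' : (a + 1).Prime) (hb' : (b + 1).Prime)
    (hle : a ≤ 27) (he : rep p a = rep q b) : False := by
  have hab := lt_of_rep_eq hb1 hpq he
  obtain ⟨v2, v3, v5, v6, v8, v9, v11⟩ := hVVB
  obtain ⟨A, rfl⟩ := ha
  obtain ⟨B, rfl⟩ := hb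
  have hr := hRUN A B p q (by omega) (by omega) (by omega) hpq (by rw [two_mul, two_mul]; exact he)
  have key : ∀ c, c ≤ vv A → p * 2 ^ (c + 1) ≤ 4 ^ A := fun c hc =>
    (Nat.mul_le_mul_left _ (Nat.pow_le_pow_right (by norm_num) (by omega))).trans hr
  have hA : A ≤ 13 := by omega
  have hB : 1 ≤ B := by omega
  have hBA : B < A := by omega
  interval_cases A
  · omega
  · omega
  · -- 4
    have hk := key 1 v2
    interval_cases B
    exact f_chk c4 hp h3 (by omega) (by simp) ok2 q he
  · -- 6
    have hk := key 2 v3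
    interval_cases B
    · exact f_chk c6 hp h3 (by omega) (by simp) ok2 q he
    · exact f_chk c6 hp h3 (by omega) (by simp) ok4 q he
  · exact absurd ha' (by norm_num)
  · -- 10
    have hk := key 2 v5
    interval_cases B
    · exact f_chk c10 hp h3 (by omega) (by simp) ok2 q he
    · exact f_chk c10 hp h3 (by omega) (by simp) ok4 q he
    · exact f_chk c10 hp h3 (by omega) (by simp) ok6 q he
    · exact absurd hb' (by norm_num)
  · -- 12
    have hk := key 2 v6
    interval_cases B
    · exact f_chk c12 hp h3 (by omega) (by simp) ok2 q he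
    · exact f_chk c12 hp h3 (by omega) (by simp) ok4 q he
    · exact f_chk c12 hp h3 (by omega) (by simp) ok6 q he
    · exact absurd hb' (by norm_num)
    · exact f_chk c12 hp h3 (by omega) (by simp) ok10 q he
  · exact absurd ha' (by norm_num)
  · -- 16
    have hk := key 1 v8
    interval_cases B
    · exact chkR_use c16 hp (by omega) (by omega) (by simp) ok2 q he
    · exact chkR_use c16 hp (by omega) (by omega) (by simp) ok4 q he
    · exact chkR_use c16 hp (by omega) (by omega) (by simp) ok6 q he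
    · exact absurd hb' (by norm_num)
    · exact chkR_use c16 hp (by omega) (by omega) (by simp) ok10 q he
    · exact chkR_use c16 hp (by omega) (by omega) (by simp) ok12 q he
    · exact absurd hb' (by norm_num)
  · -- 18
    have hk := key 2 v9
    interval_cases B
    · exact chkR_use c18 hp (by omega) (by omega) (by simp) ok2 q he
    · exact chkR_use c18 hp (by omega) (by omega) (by simp) ok4 q he
    · exact chkR_use c18 hp (by omega) (by omega) (by simp) ok6 q he
    · exact absurd hb' (by norm_num)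
    · exact chkR_use c18 hp (by omega) (by omega) (by simp) ok10 q he
    · exact chkR_use c18 hp (by omega) (by omega) (by simp) ok12 q he
    · exact absurd hb' (by norm_num)
    · exact chkR_use c18 hp (by omega) (by omega) (by simp) ok16 q he
  · exact absurd ha' (by norm_num)
  · -- 22
    have hk := key 3 v11
    interval_cases B
    · exact f22 hp h3 (by omega) (by simp [TT22]) ok2 q he
    · exact f22 hp h3 (by omega) (by simp [TT22]) ok4 q he
    · exact f22 hp h3 (by omega) (by simp [TT22]) ok6 q he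
    · exact absurd hb' (by norm_num)
    · exact f22 hp h3 (by omega) (by simp [TT22]) ok10 q he
    · exact f22 hp h3 (by omega) (by simp [TT22]) ok12 q he
    · exact absurd hb' (by norm_num)
    · exact f22 hp h3 (by omega) (by simp [TT22]) ok16 q he
    · exact f22 hp h3 (by omega) (by simp [TT22]) ok18 q he
    · exact absurd hb' (by norm_num)
  · exact absurd ha' (by norm_num)
  · exact absurd ha' (by norm_num)

theorem hEXP (hPRM : StPRM) (hVVB : StVVB) {n : ℕ} (hodd : Odd n)
    (hP : ∀ p a : ℕ, p.Prime → 1 ≤ a → p ^ a ∣ n → ¬ p ^ (a + 1) ∣ n →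
      (ArithmeticFunction.sigma 1 (p ^ a)).Prime)
    (hN : ∃ d : ℕ, 0 < d ∧ d ∣ n ∧
      ArithmeticFunction.sigma 1 (ArithmeticFunction.sigma 1 n) = 2 * n + d) :
    ∀ p ∈ n.primeFactors, ∀ q ∈ n.primeFactors, p < q →
      rep p (n.factorization p) = rep q (n.factorization q) → 28 ≤ n.factorization p := by
  obtain ⟨h1, h2⟩ := Pool.Agent.Helper63.NQ.hGRP n hodd hP hN
  have hn0 : n ≠ 0 := hodd.pos.ne'
  have hpr : ∀ p ∈ n.primeFactors, 1 ≤ n.factorization p ∧ (n.factorization p + 1).Prime := by
    intro p hp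
    have hpp := Nat.prime_of_mem_primeFactors hp
    have h3 : 1 ≤ n.factorization p :=
      hpp.factorization_pos_of_dvd hn0 (Nat.dvd_of_mem_primeFactors hp)
    have h4 := hP p (n.factorization p) hpp h3 (Nat.ordProj_dvd n p)
      (Nat.pow_succ_factorization_not_dvd hn0 hpp)
    rw [ArithmeticFunction.sigma_one_apply_prime_pow hpp] at h4
    exact ⟨h3, hPRM p _ hpp.two_le h3 h4⟩
  intro p hp q hq hpq he
  by_contra hc
  push Not at hc
  have hpo : Odd p := Odd.of_dvd_nat hodd (Nat.dvd_of_mem_primeFactors hp)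
  have h3 : 3 ≤ p := by
    have := (Nat.prime_of_mem_primeFactors hp).two_le
    obtain ⟨s, hs⟩ := hpo
    omega
  exact no_small hVVB hpo h3 hpq (h1 p hp) (h1 q hq) (hpr q hq).1 (hpr p hp).2 (hpr q hq).2
    (by omega) he

end Pool.Agent.Helper82.NQ
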