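import Pool.Agent.Helper82.NQ.St

/-!
# Runge bound for the equation of Goormaghtigh with even exponents
-/

set_option autoImplicit false

namespace Pool.Agent.Helper82.NQ

open Finset Nat

/-- the convolution -/
def TT (n : ℕ) : ℕ := ∑ x ∈ antidiagonal n, centralBinom x.1 * centralBinom x.2

def SS (n : ℕ) : ℕ := ∑ x ∈ antidiagonal n, x.1 * (centralBinom x.1 * centralBinom x.2)

theorem two_SS (n : ℕ) : 2 * SS n = n * TT n := by
  have h1 : SS n = ∑ x ∈ antidiagonal n, x.2 * (centralBinom x.1 * centralBinom x.2) := by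
    unfold SS
    rw [← Finset.Nat.sum_antidiagonal_swap]
    refine Finset.sum_congr rfl fun x _ => ?_
    simp only [Prod.fst_swap, Prod.snd_swap]
    ring
  have h2 : 2 * SS n = SS n + ∑ x ∈ antidiagonal n, x.2 * (centralBinom x.1 * centralBinom x.2) := by
    rw [← h1]; ring
  rw [h2]
  unfold SS TT
  rw [← Finset.sum_add_distrib, Finset.mul_sum]
  refine Finset.sum_congr rfl fun x hx => ?_
  rw [← add_mul, Finset.HasAntidiagonal.mem_antidiagonal.mp hx]

theorem SS_succ (n : ℕ) : SS (n + 1) = 4 * SS n + 2 * TT n := by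
  unfold SS TT
  rw [Finset.Nat.antidiagonal_succ, Finset.sum_cons, Finset.sum_map]
  simp only [zero_mul, zero_add]
  rw [Finset.mul_sum, Finset.mul_sum, ← Finset.sum_add_distrib]
  refine Finset.sum_congr rfl fun x _ => ?_
  have h := Nat.succ_mul_centralBinom_succ x.1
  simp only [Function.Embedding.prodMap, Function.Embedding.coeFn_mk, Prod.map, Nat.succ_eq_add_one,
    Function.Embedding.refl_apply]
  calc (x.1 + 1) * ((x.1 + 1).centralBinom * x.2.centralBinom)
      = ((x.1 + 1) * (x.1 + 1).centralBinom) * x.2.centralBinom := by ring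
    _ = (2 * (2 * x.1 + 1) * x.1.centralBinom) * x.2.centralBinom := by rw [h]
    _ = _ := by ring

theorem TT_eq (n : ℕ) : TT n = 4 ^ n := by
  induction n with
  | zero => simp [TT]
  | succ n ih =>
    have h1 := two_SS (n + 1)
    have h2 := SS_succ n
    have h3 := two_SS n
    have h4 : (n + 1) * TT (n + 1) = (n + 1) * (4 * TT n) := by
      rw [← h1, h2]
      calc 2 * (4 * SS n + 2 * TT n) = 4 * (2 * SS n) + 4 * TT n := by ring
        _ = 4 * (n * TT n) + 4 * TT n := by rw [h3]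
        _ = _ := by ring
    have h5 := Nat.eq_of_mul_eq_mul_left (Nat.succ_pos n) h4
    rw [h5, ih, pow_succ]
    ring

/-- `4 ^ A` times the truncated square root -/
def MMp (A p : ℕ) : ℕ := ∑ i ∈ range (A + 1), centralBinom i * (4 * p) ^ (A - i)

def EE (A t : ℕ) : ℕ := ∑ x ∈ (range (A + 1) ×ˢ range (A + 1)) with x.1 + x.2 = t,
  centralBinom x.1 * centralBinom x.2

theorem EE_le (A t : ℕ) : EE A t ≤ 4 ^ t := by
  rw [← TT_eq]
  unfold EE TT
  refine Finset.sum_le_sum_of_subset ?_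
  intro x hx
  rw [Finset.mem_filter] at hx
  exact Finset.HasAntidiagonal.mem_antidiagonal.mpr hx.2

theorem EE_eq {A t : ℕ} (h : t ≤ A) : EE A t = 4 ^ t := by
  rw [← TT_eq]
  unfold EE TT
  refine Finset.sum_congr ?_ fun _ _ => rfl
  ext x
  simp only [Finset.mem_filter, Finset.mem_product, Finset.mem_range, Finset.HasAntidiagonal.mem_antidiagonal]
  constructor
  · exact fun hx => hx.2
  · intro hx
    refine ⟨⟨?_, ?_⟩, hx⟩ <;> omega

theorem MM_sq (A p : ℕ) : MMp A p ^ 2 = ∑ t ∈ range (2 * A + 1), EE A t * (4 * p) ^ (2 * A - t) := by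
  have h1 : MMp A p ^ 2 = ∑ x ∈ (range (A + 1) ×ˢ range (A + 1)),
      centralBinom x.1 * centralBinom x.2 * (4 * p) ^ (2 * A - (x.1 + x.2)) := by
    rw [sq]
    unfold MMp
    rw [Finset.sum_mul_sum, Finset.sum_product]
    refine Finset.sum_congr rfl fun i hi => Finset.sum_congr rfl fun j hj => ?_
    rw [Finset.mem_range] at hi hj
    have h2 : 2 * A - (i + j) = (A - i) + (A - j) := by omega
    rw [h2, pow_add]
    ring
  rw [h1, ← Finset.sum_fiberwise_of_maps_to (s := range (A + 1) ×ˢ range (A + 1))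
    (t := range (2 * A + 1)) (g := fun x => x.1 + x.2)]
  · refine Finset.sum_congr rfl fun t _ => ?_
    unfold EE
    rw [Finset.sum_mul]
    refine Finset.sum_congr rfl fun x hx => ?_
    rw [Finset.mem_filter] at hx
    rw [hx.2]
  · intro x hx
    rw [Finset.mem_product, Finset.mem_range, Finset.mem_range] at hx
    rw [Finset.mem_range]
    omega

theorem pow_conv {A p t : ℕ} (h : t ≤ 2 * A) : 4 ^ t * (4 * p) ^ (2 * A - t) = 16 ^ A * p ^ (2 * A - t) := by
  rw [mul_pow, ← mul_assoc, ← pow_add]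
  have h1 : t + (2 * A - t) = 2 * A := by omega
  rw [h1, pow_mul]
  norm_num

theorem rep_refl (p A : ℕ) : rep p (2 * A) = ∑ t ∈ range (2 * A + 1), p ^ (2 * A - t) := by
  unfold rep
  rw [← Finset.sum_range_reflect]
  refine Finset.sum_congr rfl fun t ht => ?_
  congr 1

theorem MM_sq_le (A p : ℕ) : MMp A p ^ 2 ≤ 16 ^ A * rep p (2 * A) := by
  rw [MM_sq, rep_refl, Finset.mul_sum]
  refine Finset.sum_le_sum fun t ht => ?_
  rw [Finset.mem_range] at ht
  rw [← pow_conv (by omega)]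
  exact Nat.mul_le_mul_right _ (EE_le A t)

theorem le_MM_sq (A p : ℕ) : 16 ^ A * rep p (2 * A) ≤ MMp A p ^ 2 + 16 ^ A * ∑ i ∈ range A, p ^ i := by
  have h1 : rep p (2 * A) = (∑ i ∈ range A, p ^ i) + ∑ t ∈ range (A + 1), p ^ (2 * A - t) := by
    unfold rep
    have h2 : 2 * A + 1 = A + (A + 1) := by ring
    rw [h2, Finset.sum_range_add]
    congr 1
    rw [← Finset.sum_range_reflect]
    refine Finset.sum_congr rfl fun t ht => ?_
    rw [Finset.mem_range] at ht
    congr 1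
    omega
  rw [h1, mul_add, add_comm]
  refine Nat.add_le_add_right ?_ _
  rw [MM_sq, Finset.mul_sum]
  have h3 : ∑ t ∈ range (A + 1), EE A t * (4 * p) ^ (2 * A - t) ≤
      ∑ t ∈ range (2 * A + 1), EE A t * (4 * p) ^ (2 * A - t) := by
    refine Finset.sum_le_sum_of_subset ?_
    intro t ht
    rw [Finset.mem_range] at ht ⊢
    omega
  refine le_trans (Finset.sum_le_sum fun t ht => ?_) h3
  rw [Finset.mem_range] at ht
  rw [EE_eq (by omega), pow_conv (by omega)]

theorem le_MM (A p : ℕ) : 4 ^ A * p ^ A ≤ MMp A p := by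
  unfold MMp
  have h := Finset.single_le_sum (f := fun i => centralBinom i * (4 * p) ^ (A - i))
    (fun i _ => Nat.zero_le _) (Finset.mem_range.mpr (Nat.succ_pos A))
  simp only [Nat.centralBinom_zero, one_mul, Nat.sub_zero] at h
  rw [← mul_pow]
  exact h

theorem vv_succ (i : ℕ) : vv (i + 1) ≤ vv i + 1 := by
  have h := Nat.succ_mul_centralBinom_succ i
  have h0 : (i + 1).centralBinom ≠ 0 := Nat.centralBinom_ne_zero _
  have h1 : i.centralBinom ≠ 0 := Nat.centralBinom_ne_zero _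
  have hp : Fact (Nat.Prime 2) := ⟨Nat.prime_two⟩
  have h2 := congrArg (padicValNat 2) h
  rw [padicValNat.mul (by omega) h0, padicValNat.mul (by omega) h1, padicValNat.mul (by omega) (by omega),
    padicValNat.self (by norm_num), padicValNat.eq_zero_of_not_dvd (show ¬ 2 ∣ 2 * i + 1 by omega)] at h2
  unfold vv
  omega

theorem vv_le {A i : ℕ} (h : i ≤ A) : vv A ≤ vv i + (A - i) := by
  induction A with
  | zero => simp [Nat.le_zero.mp h]
  | succ A ih =>
    rcases Nat.lt_or_ge i (A + 1) with h1 | h1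
    · have h2 := ih (by omega)
      have h3 := vv_succ A
      omega
    · have h2 : i = A + 1 := by omega
      rw [h2]
      simp

theorem dvd_term {A i : ℕ} (h : i < A) (z : ℕ) : 2 ^ (vv A + 1) ∣ centralBinom i * (4 ^ (A - i) * z) := by
  rw [← mul_assoc]
  refine Dvd.dvd.mul_right ?_ _
  have h1 : 2 ^ vv i ∣ centralBinom i := pow_padicValNat_dvd
  have h2 : (4 : ℕ) ^ (A - i) = 2 ^ (2 * (A - i)) := by
    rw [pow_mul]
    norm_num
  have h3 := vv_le h.le
  refine (pow_dvd_pow 2 (show vv A + 1 ≤ vv i + 2 * (A - i) by omega)).trans ?_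
  rw [pow_add, h2]
  exact Nat.mul_dvd_mul_right h1 _

theorem MM_split (A p : ℕ) : ∃ u, MMp A p = 2 ^ (vv A + 1) * u + centralBinom A := by
  unfold MMp
  rw [Finset.sum_range_succ, Nat.sub_self, pow_zero, mul_one]
  have h : 2 ^ (vv A + 1) ∣ ∑ i ∈ range A, centralBinom i * (4 * p) ^ (A - i) := by
    refine Finset.dvd_sum fun i hi => ?_
    rw [mul_pow]
    exact dvd_term (Finset.mem_range.mp hi) _
  obtain ⟨u, hu⟩ := h
  exact ⟨u, by rw [hu]⟩

theorem dvd_NN {A B q : ℕ} (h : B < A) : 2 ^ (vv A + 1) ∣ 4 ^ (A - B) * MMp B q := by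
  unfold MMp
  rw [Finset.mul_sum]
  refine Finset.dvd_sum fun i hi => ?_
  rw [Finset.mem_range] at hi
  have h1 : 4 ^ (A - B) * (centralBinom i * (4 * q) ^ (B - i)) =
      centralBinom i * (4 ^ (A - i) * q ^ (B - i)) := by
    have h2 : A - i = (A - B) + (B - i) := by omega
    rw [h2, pow_add, mul_pow]
    ring
  rw [h1]
  exact dvd_term (by omega) _

theorem geom_lt {p A : ℕ} (hp : 1 ≤ p) : (p - 1) * ∑ i ∈ range A, p ^ i < p ^ A := by
  obtain ⟨s, rfl⟩ : ∃ s, p = s + 1 := ⟨p - 1, by omega⟩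
  simp only [Nat.add_sub_cancel]
  have h := geom_sum_mul_add s A
  rw [mul_comm]
  omega

theorem hRUN : StRUN := by
  intro A B p q hB hBA hp hpq hr
  have he : 0 < 2 ^ (vv A + 1) := by positivity
  obtain ⟨u, hu⟩ := MM_split A p
  obtain ⟨w, hw⟩ := dvd_NN (q := q) hBA
  have hp2 : Fact (Nat.Prime 2) := ⟨Nat.prime_two⟩
  obtain ⟨c, hc⟩ : 2 ^ vv A ∣ centralBinom A := pow_padicValNat_dvd
  have hc2 : ¬ 2 ^ (vv A + 1) ∣ centralBinom A :=
    pow_succ_padicValNat_not_dvd (Nat.centralBinom_ne_zero A)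
  set e := 2 ^ vv A with hedef
  have he2 : 2 ^ (vv A + 1) = 2 * e := by rw [pow_succ, hedef]; ring
  rw [he2] at hu hw hc2 ⊢
  have hepos : 0 < e := by positivity
  set M := MMp A p with hM
  set N := 4 ^ (A - B) * MMp B q with hN
  set R := 16 ^ A * rep p (2 * A) with hR
  have hM2 : M ^ 2 ≤ R := MM_sq_le A p
  have hRM : R ≤ M ^ 2 + 16 ^ A * ∑ i ∈ range A, p ^ i := le_MM_sq A p
  have h16 : 16 ^ A = (4 ^ (A - B)) ^ 2 * 16 ^ B := by
    have h1 : (4 ^ (A - B)) ^ 2 = 16 ^ (A - B) := by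
      rw [← pow_mul, mul_comm, pow_mul]
      norm_num
    rw [h1, ← pow_add]
    congr 1
    omega
  have hN2 : N ^ 2 ≤ R := by
    rw [hN, hR, mul_pow, h16, hr, mul_assoc]
    exact Nat.mul_le_mul_left _ (MM_sq_le B q)
  have hRN : R ≤ N ^ 2 + 16 ^ A * ∑ i ∈ range B, q ^ i := by
    rw [hN, hR, mul_pow, h16, hr, mul_assoc, mul_assoc, ← mul_add]
    exact Nat.mul_le_mul_left _ (le_MM_sq B q)
  have hMge : 4 ^ A * p ^ A ≤ M := le_MM A p
  have hNge : 4 ^ A * q ^ B ≤ N := by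
    have h1 : 4 ^ A = 4 ^ (A - B) * 4 ^ B := by
      rw [← pow_add]
      congr 1
      omega
    rw [hN, h1, mul_assoc]
    exact Nat.mul_le_mul_left _ (le_MM B q)
  have hMd : M = e * (2 * u + c) := by rw [hu, hc]; ring
  have hNd : N = e * (2 * w) := by rw [hw]; ring
  have hcodd : ¬ 2 ∣ c := by
    intro h2
    apply hc2
    obtain ⟨c', hc'⟩ := h2
    rw [hc, hc']
    exact ⟨c', by ring⟩
  have h44 : (16 : ℕ) ^ A = 4 ^ A * 4 ^ A := by
    rw [← mul_pow]
    norm_num
  -- general step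
  have step : ∀ X Y P a : ℕ, 2 ≤ P → X + e ≤ Y → Y ^ 2 ≤ R → R ≤ X ^ 2 + 16 ^ A * ∑ i ∈ range a, P ^ i →
      4 ^ A * P ^ a ≤ X → 2 * e * (P - 1) < 4 ^ A := by
    intro X Y P a hP hXY hY hX hXge
    have h1 : X ^ 2 + 2 * e * X ≤ Y ^ 2 := by
      calc X ^ 2 + 2 * e * X ≤ (X + e) ^ 2 := by nlinarith [sq_nonneg e]
        _ ≤ Y ^ 2 := Nat.pow_le_pow_left hXY 2
    have h2 : 2 * e * X ≤ 16 ^ A * ∑ i ∈ range a, P ^ i := by omega
    have h3 : 2 * e * (4 ^ A * P ^ a) ≤ 16 ^ A * ∑ i ∈ range a, P ^ i :=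
      (Nat.mul_le_mul_left _ hXge).trans h2
    have h4 : 4 ^ A * (2 * e * P ^ a) ≤ 4 ^ A * (4 ^ A * ∑ i ∈ range a, P ^ i) := by
      calc 4 ^ A * (2 * e * P ^ a) = 2 * e * (4 ^ A * P ^ a) := by ring
        _ ≤ _ := h3
        _ = _ := by rw [h44]; ring
    have h5 : 2 * e * P ^ a ≤ 4 ^ A * ∑ i ∈ range a, P ^ i :=
      Nat.le_of_mul_le_mul_left h4 (by positivity)
    have h6 : 4 ^ A * ((P - 1) * ∑ i ∈ range a, P ^ i) < 4 ^ A * P ^ a :=
      Nat.mul_lt_mul_of_pos_left (geom_lt (by omega)) (by positivity)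
    have h7 : 2 * e * (P - 1) * P ^ a < 4 ^ A * P ^ a := by
      calc 2 * e * (P - 1) * P ^ a = (2 * e * P ^ a) * (P - 1) := by ring
        _ ≤ (4 ^ A * ∑ i ∈ range a, P ^ i) * (P - 1) := Nat.mul_le_mul_right _ h5
        _ = 4 ^ A * ((P - 1) * ∑ i ∈ range a, P ^ i) := by ring
        _ < _ := h6
    exact Nat.lt_of_mul_lt_mul_right h7
  rcases Nat.lt_trichotomy (2 * u + c) (2 * w) with hlt | heq | hgt
  · -- M < N
    have h1 : M + e ≤ N := by
      rw [hMd, hNd]
      calc e * (2 * u + c) + e = e * (2 * u + c + 1) := by ring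
        _ ≤ _ := Nat.mul_le_mul_left _ hlt
    have h2 := step M N p A hp h1 hN2 hRM hMge
    -- 2 e divides 4 ^ A
    have h3 : 2 * e < 4 ^ A := by
      refine lt_of_le_of_lt ?_ h2
      exact Nat.le_mul_of_pos_right _ (by omega)
    have h4 : (4 : ℕ) ^ A = 2 ^ (2 * A) := by
      rw [pow_mul]
      norm_num
    have h5 : vv A + 1 ≤ 2 * A := by
      rw [← he2, h4] at h3
      exact ((Nat.pow_lt_pow_iff_right (by norm_num)).mp h3).le
    obtain ⟨f, hf⟩ : 2 * e ∣ 4 ^ A := by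
      rw [← he2, h4]
      exact pow_dvd_pow 2 h5
    rw [hf] at h2 ⊢
    have h6 := Nat.lt_of_mul_lt_mul_left h2
    calc p * (2 * e) = 2 * e * p := by ring
      _ ≤ 2 * e * f := Nat.mul_le_mul_left _ (by omega)
  · exfalso
    apply hcodd
    omega
  · -- N < M
    have h1 : N + e ≤ M := by
      rw [hMd, hNd]
      calc e * (2 * w) + e = e * (2 * w + 1) := by ring
        _ ≤ _ := Nat.mul_le_mul_left _ hgt
    have h2 := step N M q B (by omega) h1 hM2 hRN hNge
    calc p * (2 * e) = 2 * e * p := by ring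
      _ ≤ 2 * e * (q - 1) := Nat.mul_le_mul_left _ (by omega)
      _ ≤ _ := h2.le

end Pool.Agent.Helper82.NQ
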