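import Mathlib

/-!
# Project NQ (MP_255fbb_nt): few odd near superperfect numbers with prime sigma components

Statements. Prefixes: `rep p a = 1 + p + ... + p ^ a`.
-/

set_option autoImplicit false

namespace Pool.Agent.Helper82.NQ

open Finset

/-- `1 + p + ... + p ^ a` -/
def rep (p a : ℕ) : ℕ := ∑ i ∈ range (a + 1), p ^ i

/-- the exponent of `2` in the central binomial coefficient -/
def vv (A : ℕ) : ℕ := padicValNat 2 (Nat.centralBinom A)

/-- Runge bound for the equation of Goormaghtigh with even exponents -/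
def StRUN : Prop := ∀ A B p q : ℕ, 1 ≤ B → B < A → 2 ≤ p → p < q →
  rep p (2 * A) = rep q (2 * B) → p * 2 ^ (vv A + 1) ≤ 4 ^ A

/-- every component has a partner with the same sigma, and every component which is not the one
with the largest prime of its class has a small prime -/
def Cand (n : ℕ) : Prop := n ≠ 0 ∧ ∀ p ∈ n.primeFactors,
  (∃ q ∈ n.primeFactors, q ≠ p ∧ rep q (n.factorization q) = rep p (n.factorization p)) ∧
  ((∃ q ∈ n.primeFactors, p < q ∧ rep q (n.factorization q) = rep p (n.factorization p)) →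
    p ≤ 2 ^ (n.factorization p))

open Classical in
/-- the candidates up to `x` -/
noncomputable def NC (x : ℕ) : Finset ℕ := (Icc 1 x).filter Cand

/-- `√(log₂ x)` -/
def MM (x : ℕ) : ℕ := Nat.sqrt (Nat.log 2 x)

/-- `log₂ √(log₂ x)` -/
def kk (x : ℕ) : ℕ := Nat.log 2 (MM x)

/-- ENC: the encoding. For `1 ≤ k = kk x`, and `W` with `w ^ k ≤ x → w ≤ W`. -/
def StENC : Prop := ∀ x W : ℕ, 1 ≤ kk x → (∀ w : ℕ, w ^ kk x ≤ x → w ≤ W) →
  (NC x).card ≤ (Nat.log 2 x + 1) ^ (2 * (MM x + 1)) * (W + 1) *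
    (kk x * (Nat.log 2 x + 1)) ^ (Nat.log 2 x / kk x ^ 2)

/-- EST: the estimate -/
def StEST : Prop := ∃ C : ℝ, 0 < C ∧ ∀ x : ℕ, 3 ≤ x →
  ((NC x).card : ℝ) ≤ (x : ℝ) ^ (C / Real.log (Real.log x))

/-- GRP: the odd near superperfect numbers with prime sigma components are candidates -/
def StGRP : Prop := ∀ n : ℕ, Odd n →
  (∀ p a : ℕ, p.Prime → 1 ≤ a → p ^ a ∣ n → ¬ p ^ (a + 1) ∣ n →
    (ArithmeticFunction.sigma 1 (p ^ a)).Prime) →
  (∃ d : ℕ, 0 < d ∧ d ∣ n ∧
    ArithmeticFunction.sigma 1 (ArithmeticFunction.sigma 1 n) = 2 * n + d) →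
  (∀ p ∈ n.primeFactors, Even (n.factorization p)) ∧
  ∀ p ∈ n.primeFactors, ∃ q ∈ n.primeFactors, q ≠ p ∧
    rep q (n.factorization q) = rep p (n.factorization p)

end Pool.Agent.Helper82.NQ
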