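import Pool.Agent.Helper82.NQ.St

/-!
# Project NQ, second part: large exponents and the size of a counterexample
-/

set_option autoImplicit false

namespace Pool.Agent.Helper82.NQ

open Finset

/-- SIZE: if every prime factor of `n` has a partner with the same `rep`, the smaller member of
each pair of equal `rep` has exponent at least `28`, `n` is odd and has at least ten prime factors,
then `15015 ^ 56 ≤ n`. -/
def StSIZE : Prop := ∀ n : ℕ, Odd n → 10 ≤ n.primeFactors.card →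
  (∀ p ∈ n.primeFactors, ∃ q ∈ n.primeFactors, q ≠ p ∧
    rep q (n.factorization q) = rep p (n.factorization p)) →
  (∀ p ∈ n.primeFactors, ∀ q ∈ n.primeFactors, p < q →
    rep p (n.factorization p) = rep q (n.factorization q) → 28 ≤ n.factorization p) →
  15015 ^ 56 ≤ n

/-- PRD: a set of at least `j` odd primes (`j ≤ 10`) has product at least the product of the first
`j` odd primes -/
def StPRD : Prop := ∀ (S : Finset ℕ) (j : ℕ), (∀ p ∈ S, p.Prime ∧ Odd p) → j ≤ S.card → j ≤ 10 →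
  (([3, 5, 7, 11, 13, 17, 19, 23, 29, 31] : List ℕ).take j).prod ≤ ∏ p ∈ S, p

/-- PRM: if `1 + p + ... + p ^ a` is prime (`p ≥ 2`, `a ≥ 1`) then `a + 1` is prime -/
def StPRM : Prop := ∀ p a : ℕ, 2 ≤ p → 1 ≤ a → (rep p a).Prime → (a + 1).Prime

/-- VVB: values of `vv` -/
def StVVB : Prop := 1 ≤ vv 2 ∧ 2 ≤ vv 3 ∧ 2 ≤ vv 5 ∧ 2 ≤ vv 6 ∧ 1 ≤ vv 8 ∧ 2 ≤ vv 9 ∧ 3 ≤ vv 11

end Pool.Agent.Helper82.NQ
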