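import Pool.Agent.Helper82.NQ.Tab

/-!
# Finite check: ranges
-/

set_option autoImplicit false

namespace Pool.Agent.Helper82.NQ

/-- the blocks `k = j, ..., j + n - 1` of `4096` numbers -/
def chkR (a j : ℕ) (TT : List (List (ℕ × ℕ))) : ℕ → Bool
  | 0 => true
  | n + 1 => cond (chk a (4096 * (n + j) + 2) TT 2048) (chkR a j TT n) false

theorem chkR_sound {a j : ℕ} {TT : List (List (ℕ × ℕ))} : ∀ {n : ℕ}, chkR a j TT n = true →
    ∀ k < n, chk a (4096 * (k + j) + 2) TT 2048 = true := by
  intro n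
  induction n with
  | zero => intro _ k hk; omega
  | succ n ih =>
    intro h k hk
    unfold chkR at h
    cases hb : chk a (4096 * (n + j) + 2) TT 2048 with
    | false => rw [hb] at h; simp at h
    | true =>
      rw [hb] at h
      simp only [cond_true] at h
      rcases Nat.lt_succ_iff_lt_or_eq.mp hk with h1 | h1
      · exact ih h k h1
      · rw [h1]; exact hb

theorem chkR_use {a j n p : ℕ} {TT : List (List (ℕ × ℕ))} (h : chkR a j TT n = true)
    (hp : Odd p) (h1 : 4096 * j + 3 ≤ p) (h2 : p < 4096 * (j + n) + 3) {T : List (ℕ × ℕ)} (hT : T ∈ TT)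
    {b : ℕ} (hb : imgOk b T = true) (q : ℕ) : rep p a ≠ rep q b := by
  obtain ⟨s, hs⟩ := hp
  have hk : (p - 3) / 4096 - j < n := by omega
  have h3 := chkR_sound h _ hk
  have h4 := chk_sound h3 (by omega) (((p - 3) % 4096) / 2) (by omega) T hT
  have h5 : 4096 * ((p - 3) / 4096 - j + j) + 2 + 2 * (((p - 3) % 4096) / 2) + 1 = p := by omega
  rw [h5] at h4
  exact tst_sound hb h4 q

def TT22 : List (List (ℕ × ℕ)) := [tb18, tb16, tb12, tb10, tb6, tb4, tb2]

end Pool.Agent.Helper82.NQ
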